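import Pool.Agent.R734.Carnot

/-!
# Heintze groups of Carnot type are exactly `1 / s ^ 2` pinched (MP_1a0a4b_gt, Q1)

Left invariant Riemannian metrics on the simply connected Lie group with Lie algebra `g` are the
inner products on `g`; connection, curvature and sectional curvature of such a metric are computed
on left invariant vector fields, that is in `g` (`InvMetric.nabla`, `InvMetric.curv`,
`InvMetric.sec`). No rationality (lattice) hypothesis on the nilradical is made.

Proof. Let `ν` be normal to the nilradical `n`, `D = ad ν` on `n`, with symmetric part `S`. The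
number `c` (the `A`-coefficient of `ν`) is an eigenvalue of `D`, and `c s` is an eigenvalue of the
transpose of `D`. For an eigenvector `v` of `D` the plane of `v` and `ν` has curvature
`(|S v| ^ 2 - 2 c ^ 2 |v| ^ 2) / (|v| ^ 2 |ν| ^ 2) ≥ - c ^ 2 / |ν| ^ 2`, for an eigenvector `w` of
the transpose with eigenvalue `μ = c s` it has curvature
`(2 μ ^ 2 |w| ^ 2 - 3 |S w| ^ 2) / (|w| ^ 2 |ν| ^ 2) ≤ - μ ^ 2 / |ν| ^ 2`.
-/

set_option autoImplicit false

open Pool.Agent.R734.Heintze in
/-- Let `g` be the Lie algebra of a Heintze group of Carnot type of step `s`, and let `B` be a left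
invariant metric all of whose sectional curvatures lie in `[a, b]` with `a ≤ b < 0`. Then
`b / a ≤ 1 / s ^ 2`. -/
theorem Pool.Agent.Results.MP_1a0a4b_gt.SharpPinching.result
    {g : Type*} [LieRing g] [LieAlgebra ℝ g] [FiniteDimensional ℝ g]
    (s : ℕ) (V : ℕ → Submodule ℝ g) (A : g) (hg : IsHeintzeCarnot s V A)
    (B : InvMetric g) (a b : ℝ) (_hab : a ≤ b) (_hb : b < 0) (hK : B.SecIn a b) :
    b / a ≤ 1 / (s : ℝ) ^ 2 := by
  obtain ⟨h1, h2⟩ := pinching hg B hK
  have hs : (0 : ℝ) < s := by exact_mod_cast hg.one_le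
  rw [div_le_iff_of_neg h2, div_mul_eq_mul_div, one_mul, div_le_iff₀ (by positivity)]
  exact h1
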